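import Pool.Agent.Q246.KMF.Main

set_option autoImplicit false

/-!
# Every expanding set supports a KMF mean

For every abelian group `G` and every `S ⊆ G` which meets every almost Bohr set there is a mean
supported on `S` which annihilates continuous measures and has `m(1_B) = 1` for every Bohr set `B`;
in particular it is a KMF mean. The definitions are in `Pool.Agent.Q246.KMF.Defs`.
-/

namespace Pool.Agent.Results.MP_49446c_co.SupportsKMF

open Pool.Agent.Q246.KMF

universe u

/-- Every expanding set `S` (it meets every almost Bohr set; equivalently `d*(S ∩ B) > 0` for every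
Bohr set `B`) supports a KMF mean, and even one with `m(1_B) = 1` for all Bohr sets `B`. -/
theorem result (G : Type u) [AddCommGroup G] (S : Set G) :
    (Expanding S ↔ ∀ B : Set G, IsBohr B → 0 < dStar (S ∩ B)) ∧
    (Expanding S → ∃ m : Mean G, SupportedOn m S ∧ IsKMF m ∧
      ∀ B : Set G, IsBohr B → m.toFun (ind B) = 1) := by
  refine ⟨expanding_iff S, fun h => ?_⟩
  obtain ⟨m, h1, h2, h3⟩ := main S ((expanding_iff S).1 h)
  exact ⟨m, h1, ⟨h2, fun B hB => by rw [h3 B hB]; exact one_pos⟩, h3⟩

end Pool.Agent.Results.MP_49446c_co.SupportsKMF
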